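import Mathlib

set_option autoImplicit false

namespace Pool.Agent.Results.MP_1a49c3_al.Seventh

open Polynomial

variable {K : Type} [Field K]

/-- `p` is a linear combination of monomials of total degree `d`. -/
def Homogeneous {m : ℕ} (d : ℕ) (p : FreeAlgebra K (Fin m)) : Prop :=
  p ∈ (Submodule.span K (Set.range (FreeAlgebra.ι K : Fin m → FreeAlgebra K (Fin m)))) ^ d

/-- The image of `p` on `3 × 3` matrices. -/
def image {m : ℕ} (p : FreeAlgebra K (Fin m)) : Set (Matrix (Fin 3) (Fin 3) K) :=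
  {M | ∃ A : Fin m → Matrix (Fin 3) (Fin 3) K, M = FreeAlgebra.lift K A p}

/-- Zariski closure in `M_3(K) = K^9`. -/
def zClosure (S : Set (Matrix (Fin 3) (Fin 3) K)) : Set (Matrix (Fin 3) (Fin 3) K) :=
  {A | ∀ f : MvPolynomial (Fin 3 × Fin 3) K,
    (∀ B ∈ S, MvPolynomial.eval (fun ij => B ij.1 ij.2) f = 0) →
      MvPolynomial.eval (fun ij => A ij.1 ij.2) f = 0}

variable (K) in
/-- The `3`-scalar matrices: characteristic polynomial `x³ - c`. -/
def V3 : Set (Matrix (Fin 3) (Fin 3) K) := {A | ∃ c : K, A.charpoly = X ^ 3 - C c}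

theorem subset_zClosure (S : Set (Matrix (Fin 3) (Fin 3) K)) : S ⊆ zClosure S :=
  fun A hA _ hf => hf A hA

theorem V3_trace {A : Matrix (Fin 3) (Fin 3) K} (h : A ∈ V3 K) : A.trace = 0 := by
  obtain ⟨c, hc⟩ := h
  rw [Matrix.trace_eq_neg_charpoly_coeff, hc]
  simp

/-- a criterion -/
theorem crit (S : Set (Matrix (Fin 3) (Fin 3) K)) (f : MvPolynomial (Fin 3 × Fin 3) K)
    (hf : ∀ B ∈ S, MvPolynomial.eval (fun ij => B ij.1 ij.2) f = 0)
    (W : Matrix (Fin 3) (Fin 3) K) (hW : MvPolynomial.eval (fun ij => W ij.1 ij.2) f ≠ 0)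
    (hV : (3 : K) = 0 ∨ ∃ A ∈ V3 K, ∃ c : K, W = A + c • 1)
    (M : Matrix (Fin 3) (Fin 3) K) (hM : M ∈ S) (h1 : M.trace ≠ 0) (h2 : ∀ c : K, M ≠ c • 1) :
    zClosure S ≠ {0} ∧ zClosure S ≠ {A | ∃ c : K, A = c • 1} ∧ zClosure S ≠ V3 K ∧
    zClosure S ≠ {A | A.trace = 0} ∧
    zClosure S ≠ zClosure {B | ∃ A ∈ V3 K, ∃ c : K, B = A + c • 1} ∧ zClosure S ≠ Set.univ := by
  have hM' := subset_zClosure S hM
  have hW' : W ∉ zClosure S := fun h => hW (h f hf)
  refine ⟨fun h => ?_, fun h => ?_, fun h => ?_, fun h => ?_, fun h => ?_, fun h => ?_⟩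
  · rw [h, Set.mem_singleton_iff] at hM'
    exact h1 (by rw [hM', Matrix.trace_zero])
  · rw [h] at hM'
    obtain ⟨c, hc⟩ := hM'
    exact h2 c hc
  · rw [h] at hM'
    exact h1 (V3_trace hM')
  · rw [h] at hM'
    exact h1 hM'
  · rcases hV with h3 | hV
    · rw [h] at hM'
      have := hM' (MvPolynomial.X (0, 0) + MvPolynomial.X (1, 1) + MvPolynomial.X (2, 2)) (by
        rintro _ ⟨A, hA, c, rfl⟩
        have := V3_trace hA
        rw [Matrix.trace_fin_three] at this
        simp
        linear_combination this + c * h3)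
      apply h1
      simpa [Matrix.trace_fin_three] using this
    · exact hW' (h ▸ subset_zClosure _ hV)
  · exact hW' (h ▸ Set.mem_univ W)

noncomputable def comm : FreeAlgebra K (Fin 2) :=
  FreeAlgebra.ι K 0 * FreeAlgebra.ι K 1 - FreeAlgebra.ι K 1 * FreeAlgebra.ι K 0

theorem comm_hom (k : ℕ) : Homogeneous (2 * k) ((comm : FreeAlgebra K (Fin 2)) ^ k) := by
  rw [Homogeneous, pow_mul]
  apply Submodule.pow_mem_pow
  rw [pow_two]
  exact Submodule.sub_mem _
    (Submodule.mul_mem_mul (Submodule.subset_span ⟨0, rfl⟩) (Submodule.subset_span ⟨1, rfl⟩))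
    (Submodule.mul_mem_mul (Submodule.subset_span ⟨1, rfl⟩) (Submodule.subset_span ⟨0, rfl⟩))

theorem mem_image {k : ℕ} {B : Matrix (Fin 3) (Fin 3) K} (h : B ∈ image (comm ^ k)) :
    ∃ C : Matrix (Fin 3) (Fin 3) K, C 2 2 = -(C 0 0 + C 1 1) ∧ B = C ^ k := by
  obtain ⟨A, rfl⟩ := h
  refine ⟨A 0 * A 1 - A 1 * A 0, ?_, by simp [comm]⟩
  have : (A 0 * A 1 - A 1 * A 0).trace = 0 := by
    rw [Matrix.trace_sub, Matrix.trace_mul_comm, sub_self]
  rw [Matrix.trace_fin_three] at this
  linear_combination this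

theorem diag_mem (k : ℕ) (a b : K) :
    (!![a, 0, 0; 0, b - a, 0; 0, 0, -b] : Matrix (Fin 3) (Fin 3) K) ^ k ∈ image (comm ^ k) := by
  refine ⟨![!![0, 1, 0; 0, 0, 1; 0, 0, 0], !![0, 0, 0; a, 0, 0; 0, b, 0]], ?_⟩
  simp only [comm, map_pow, map_sub, map_mul, FreeAlgebra.lift_ι_apply]
  congr 1
  ext i j
  fin_cases i <;> fin_cases j <;> simp

/-- Over every algebraically closed field some homogeneous polynomial of positive degree has an
image on `M_3(K)` whose Zariski closure is none of the six conjectured sets. -/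
theorem result (K : Type) [Field K] [IsAlgClosed K] :
    ∃ (m d : ℕ) (p : FreeAlgebra K (Fin m)), 1 ≤ d ∧ Homogeneous d p ∧
      zClosure (image p) ≠ {0} ∧ zClosure (image p) ≠ {A | ∃ c : K, A = c • 1} ∧
      zClosure (image p) ≠ V3 K ∧ zClosure (image p) ≠ {A | A.trace = 0} ∧
      zClosure (image p) ≠ zClosure {B | ∃ A ∈ V3 K, ∃ c : K, B = A + c • 1} ∧
      zClosure (image p) ≠ Set.univ := by
  classical
  by_cases h2 : (2 : K) = 0
  · obtain ⟨t, ht⟩ := IsAlgClosed.exists_root (X ^ 3 + X + 1 : K[X]) (by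
      have : (X ^ 3 + X + 1 : K[X]).degree = 3 := by compute_degree!
      rw [this]; decide)
    have ht' : t ^ 3 + t + 1 = 0 := by simpa using ht
    refine ⟨2, 2 * 3, comm ^ 3, by norm_num, comm_hom 3, crit _
      ((MvPolynomial.X (0, 0) + MvPolynomial.X (1, 1) + MvPolynomial.X (2, 2)) ^ 3
        - 27 * (Matrix.of fun i j => MvPolynomial.X (i, j)).det) ?_
      !![0, 0, 1; 1, 0, 0; 0, 1, 0] ?_ (Or.inr ⟨!![0, 0, 1; 1, 0, 0; 0, 1, 0], ⟨1, ?_⟩, 0, by simp⟩) _ (diag_mem 3 1 (1 + t))
      ?_ ?_⟩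
    · intro B hB
      obtain ⟨C, hC, rfl⟩ := mem_image hB
      have e : MvPolynomial.eval (fun ij : Fin 3 × Fin 3 => (C ^ 3) ij.1 ij.2)
          (Matrix.of fun i j => MvPolynomial.X (i, j)).det = C.det ^ 3 := by
        rw [← Matrix.det_pow, RingHom.map_det]
        congr 1
        ext i j
        simp
      have e2 : (C ^ 3) 0 0 + (C ^ 3) 1 1 + (C ^ 3) 2 2 = 3 * C.det := by
        simp only [pow_succ, pow_zero, one_mul, Matrix.mul_apply, Fin.sum_univ_three,
          Matrix.det_fin_three, hC]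
        ring
      simp only [map_sub, map_pow, map_add, map_mul, MvPolynomial.eval_X, e, e2, map_ofNat]
      ring
    · simp only [map_sub, map_pow, map_add, map_mul, MvPolynomial.eval_X, map_ofNat,
        Matrix.det_fin_three, Matrix.of_apply]
      simp
      intro h
      exact one_ne_zero (α := K) (by linear_combination h - 13 * h2)
    · rw [Matrix.charpoly, Matrix.det_fin_three]
      simp [Matrix.charmatrix_apply, Matrix.diagonal_apply]
      ring
    · simp [Matrix.trace_fin_three, pow_succ]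
      intro h
      have h3 : t * (t + 1) = 0 := by linear_combination h + (t ^ 2 + t - t * (t + 1) * 0 + t ^ 2 + t) * h2
      rcases mul_eq_zero.mp h3 with h4 | h4
      · exact one_ne_zero (α := K) (by linear_combination ht' - (t ^ 2 + 1) * h4)
      · exact one_ne_zero (α := K) (by linear_combination -ht' + (t ^ 2 - t + 2) * h4)
    · intro c h
      have e0 := congrFun (congrFun h 0) 0
      have e1 := congrFun (congrFun h 1) 1
      simp [pow_succ] at e0 e1
      have h4 : t = 0 := by linear_combination ht' - e1 + e0 - h2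
      exact one_ne_zero (α := K) (by linear_combination ht' - (t ^ 2 + 1) * h4)
  · refine ⟨2, 2 * 2, comm ^ 2, by norm_num, comm_hom 2, crit _
      ((MvPolynomial.X (0, 0) + MvPolynomial.X (1, 1) + MvPolynomial.X (2, 2)) ^ 2
        - 4 * (MvPolynomial.X (0, 0) * MvPolynomial.X (1, 1)
          - MvPolynomial.X (0, 1) * MvPolynomial.X (1, 0)
          + MvPolynomial.X (0, 0) * MvPolynomial.X (2, 2)
          - MvPolynomial.X (0, 2) * MvPolynomial.X (2, 0)
          + MvPolynomial.X (1, 1) * MvPolynomial.X (2, 2)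
          - MvPolynomial.X (1, 2) * MvPolynomial.X (2, 1))) ?_
      (if (3 : K) = 0 then !![1, 0, 0; 0, 0, 0; 0, 0, 0] else 1) ?_ ?_ _ (diag_mem 2 1 0) ?_ ?_⟩
    · intro B hB
      obtain ⟨C, hC, rfl⟩ := mem_image hB
      simp only [map_sub, map_pow, map_add, map_mul, MvPolynomial.eval_X, map_ofNat]
      simp only [pow_succ, pow_zero, one_mul, Matrix.mul_apply, Fin.sum_univ_three, hC]
      ring
    · simp only [map_sub, map_pow, map_add, map_mul, MvPolynomial.eval_X, map_ofNat]
      split_ifs with h3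
      · simp
      · simp
        intro h
        exact h3 (by linear_combination -h)
    · by_cases h3 : (3 : K) = 0
      · exact Or.inl h3
      · exact Or.inr ⟨0, ⟨0, by simp⟩, 1, by simp [h3]⟩
    · simp [Matrix.trace_fin_three, pow_succ]
      intro h
      exact h2 (by linear_combination h)
    · intro c h
      have e0 := congrFun (congrFun h 0) 0
      have e1 := congrFun (congrFun h 2) 2
      simp [pow_succ] at e0 e1
      exact one_ne_zero (e0.trans e1.symm)

end Pool.Agent.Results.MP_1a49c3_al.Seventh
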